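import Mathlib

/-!
The maximum weight of an assignment of objects to `l` classes with capacities, as a recursion over
the list of objects.
-/

namespace Pool.Agent.FairDivDP

open Finset

variable {l : ℕ} {ω : Type*} [DecidableEq ω]

/-- the capacities after one object has been given to the class `i` -/
def dec (c : Fin l → ℕ) (i : Fin l) : Fin l → ℕ := Function.update c i (c i - 1)

/-- `best W c`: the rows of `W` are the objects, `r i` is the weight of the object in the class
`i`; at most `c i` objects are given to the class `i`; maximum of the sum of the weights. -/
def best : List (Fin l → ℕ) → (Fin l → ℕ) → ℕ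
  | [], _ => 0
  | r :: W, c =>
    max (best W c) (univ.sup fun i => if c i = 0 then 0 else best W (dec c i) + r i)

theorem best_nil (c : Fin l → ℕ) : best [] c = 0 := rfl

theorem best_cons (r : Fin l → ℕ) (W : List (Fin l → ℕ)) (c : Fin l → ℕ) :
    best (r :: W) c =
      max (best W c) (univ.sup fun i => if c i = 0 then 0 else best W (dec c i) + r i) := rfl

/-- Every admissible choice of disjoint sets of objects has weight at most `best`. -/
theorem le_best (f : ω → Fin l → ℕ) (os : List ω) (c : Fin l → ℕ) (S : Fin l → Finset ω)
    (hS : ∀ i, ∀ o ∈ S i, o ∈ os) (hd : ∀ i j, i ≠ j → Disjoint (S i) (S j))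
    (hc : ∀ i, (S i).card ≤ c i) :
    ∑ i, ∑ o ∈ S i, f o i ≤ best (os.map f) c := by
  induction os generalizing S c with
  | nil =>
    have h0 : ∀ i, S i = ∅ := fun i => Finset.eq_empty_of_forall_notMem (fun o ho => by
      simpa using hS i o ho)
    simp [h0, best_nil]
  | cons a os ih =>
    rw [List.map_cons, best_cons]
    by_cases ha : ∃ i, a ∈ S i
    · obtain ⟨j, hj⟩ := ha
      have hne : ∀ i, i ≠ j → a ∉ S i := by
        intro i hij hi
        exact Finset.disjoint_left.1 (hd i j hij) hi hj
      have hcj : c j ≠ 0 := by
        have h1 := hc j
        have h2 : 0 < (S j).card := Finset.card_pos.2 ⟨a, hj⟩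
        omega
      have h1 : ∑ i, ∑ o ∈ (S i).erase a, f o i ≤ best (os.map f) (dec c j) := by
        apply ih
        · intro i o ho
          rcases List.mem_cons.1 (hS i o (Finset.mem_of_mem_erase ho)) with h | h
          · exact absurd h (Finset.ne_of_mem_erase ho)
          · exact h
        · intro i k hik
          exact (hd i k hik).mono (Finset.erase_subset _ _) (Finset.erase_subset _ _)
        · intro i
          by_cases hij : i = j
          · subst hij
            rw [Finset.card_erase_of_mem hj, dec, Function.update_self]
            exact Nat.sub_le_sub_right (hc i) 1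
          · rw [Finset.erase_eq_of_notMem (hne i hij), dec, Function.update_of_ne hij]
            exact hc i
      have h2 : ∑ i, ∑ o ∈ S i, f o i = ∑ i, ∑ o ∈ (S i).erase a, f o i + f a j := by
        have h3 : ∀ i, ∑ o ∈ S i, f o i = ∑ o ∈ (S i).erase a, f o i +
            (if i = j then f a i else 0) := by
          intro i
          by_cases hij : i = j
          · subst hij
            rw [if_pos rfl, Finset.sum_erase_add _ _ hj]
          · rw [if_neg hij, Finset.erase_eq_of_notMem (hne i hij), add_zero]
        rw [Finset.sum_congr rfl (fun i _ => h3 i), Finset.sum_add_distrib]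
        congr 1
        rw [Finset.sum_ite_eq']
        simp
      have h4 : (if c j = 0 then 0 else best (os.map f) (dec c j) + f a j) ≤
          univ.sup fun i => if c i = 0 then 0 else best (os.map f) (dec c i) + f a i :=
        Finset.le_sup (f := fun i => if c i = 0 then 0 else best (os.map f) (dec c i) + f a i)
          (Finset.mem_univ j)
      rw [if_neg hcj] at h4
      apply le_max_of_le_right
      omega
    · push Not at ha
      apply le_max_of_le_left
      apply ih c S _ hd hc
      intro i o ho
      rcases List.mem_cons.1 (hS i o ho) with h | h
      · subst h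
        exact absurd ho (ha i)
      · exact h

/-- The maximum is attained. -/
theorem exists_best (f : ω → Fin l → ℕ) (os : List ω) (hos : os.Nodup) (c : Fin l → ℕ) :
    ∃ S : Fin l → Finset ω, (∀ i, ∀ o ∈ S i, o ∈ os) ∧ (∀ i j, i ≠ j → Disjoint (S i) (S j)) ∧
      (∀ i, (S i).card ≤ c i) ∧ ∑ i, ∑ o ∈ S i, f o i = best (os.map f) c := by
  induction os generalizing c with
  | nil => exact ⟨fun _ => ∅, by simp, by simp, by simp, by simp [best_nil]⟩
  | cons a os ih =>
    have hos' := (List.nodup_cons.1 hos).2
    have haos := (List.nodup_cons.1 hos).1
    rw [List.map_cons, best_cons]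
    have hcase : max (best (os.map f) c) (univ.sup fun i =>
          if c i = 0 then 0 else best (os.map f) (dec c i) + f a i) = best (os.map f) c ∨
        ∃ j, c j ≠ 0 ∧ max (best (os.map f) c) (univ.sup fun i =>
          if c i = 0 then 0 else best (os.map f) (dec c i) + f a i) =
          best (os.map f) (dec c j) + f a j := by
      by_cases hle : (univ.sup fun i =>
          if c i = 0 then 0 else best (os.map f) (dec c i) + f a i) ≤ best (os.map f) c
      · left
        exact max_eq_left hle
      · right
        push Not at hle
        have hne : (univ : Finset (Fin l)).Nonempty := by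
          rw [Finset.nonempty_iff_ne_empty]
          intro he
          rw [he, Finset.sup_empty] at hle
          simp at hle
        obtain ⟨j, -, hj⟩ := Finset.exists_mem_eq_sup _ hne (fun i =>
          if c i = 0 then 0 else best (os.map f) (dec c i) + f a i)
        refine ⟨j, ?_, ?_⟩
        · intro h0
          rw [hj, if_pos h0] at hle
          simp at hle
        · have h0 : c j ≠ 0 := by
            intro h0
            rw [hj, if_pos h0] at hle
            simp at hle
          rw [max_eq_right hle.le, hj, if_neg h0]
    rcases hcase with h | ⟨j, hj0, h⟩
    · rw [h]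
      obtain ⟨S, h1, h2, h3, h4⟩ := ih hos' c
      exact ⟨S, fun i o ho => List.mem_cons_of_mem _ (h1 i o ho), h2, h3, h4⟩
    · rw [h]
      obtain ⟨S, h1, h2, h3, h4⟩ := ih hos' (dec c j)
      have hnot : ∀ i, a ∉ S i := fun i hi => haos (h1 i a hi)
      refine ⟨Function.update S j (insert a (S j)), ?_, ?_, ?_, ?_⟩
      · intro i o ho
        by_cases hij : i = j
        · subst hij
          rw [Function.update_self] at ho
          rcases Finset.mem_insert.1 ho with rfl | ho
          · exact List.mem_cons_self
          · exact List.mem_cons_of_mem _ (h1 i o ho)
        · rw [Function.update_of_ne hij] at ho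
          exact List.mem_cons_of_mem _ (h1 i o ho)
      · intro i k hik
        by_cases hij : i = j
        · subst hij
          rw [Function.update_self, Function.update_of_ne hik.symm, Finset.disjoint_insert_left]
          exact ⟨hnot k, h2 i k hik⟩
        · rw [Function.update_of_ne hij]
          by_cases hkj : k = j
          · subst hkj
            rw [Function.update_self, Finset.disjoint_insert_right]
            exact ⟨hnot i, h2 i k hik⟩
          · rw [Function.update_of_ne hkj]
            exact h2 i k hik
      · intro i
        by_cases hij : i = j
        · subst hij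
          rw [Function.update_self, Finset.card_insert_of_notMem (hnot i)]
          have := h3 i
          rw [dec, Function.update_self] at this
          omega
        · rw [Function.update_of_ne hij]
          have := h3 i
          rwa [dec, Function.update_of_ne hij] at this
      · have h5 : ∀ i, ∑ o ∈ (Function.update S j (insert a (S j))) i, f o i =
            ∑ o ∈ S i, f o i + (if i = j then f a i else 0) := by
          intro i
          by_cases hij : i = j
          · subst hij
            rw [Function.update_self, if_pos rfl, Finset.sum_insert (hnot i), add_comm]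
          · rw [Function.update_of_ne hij, if_neg hij, add_zero]
        rw [Finset.sum_congr rfl (fun i _ => h5 i), Finset.sum_add_distrib, h4]
        congr 1
        rw [Finset.sum_ite_eq']
        simp

/-- The criterion used in the algorithm. -/
theorem le_best_iff (f : ω → Fin l → ℕ) (os : List ω) (hos : os.Nodup) (c : Fin l → ℕ) (b : ℕ) :
    b ≤ best (os.map f) c ↔ ∃ S : Fin l → Finset ω, (∀ i, ∀ o ∈ S i, o ∈ os) ∧
      (∀ i j, i ≠ j → Disjoint (S i) (S j)) ∧ (∀ i, (S i).card ≤ c i) ∧
      b ≤ ∑ i, ∑ o ∈ S i, f o i := by
  constructor
  · intro h
    obtain ⟨S, h1, h2, h3, h4⟩ := exists_best f os hos c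
    exact ⟨S, h1, h2, h3, h4 ▸ h⟩
  · rintro ⟨S, h1, h2, h3, h4⟩
    exact h4.trans (le_best f os c S h1 h2 h3)

end Pool.Agent.FairDivDP
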