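import Pool.Agent.Lib_MP_42f051_dp.Best
import Pool.Agent.Lib_MP_033923_lc.BinNat

/-!
The dynamic program for `best` (a table indexed by the vectors of counts), with binary weights:
value and polynomial running time.

`B = K + 2`; the digit `d i` of the index is the capacity plus one, the digit `0` means
impossible.  The entry is `0` for impossible and `1 + best` otherwise.
-/

namespace Pool.Agent.FairDivDP

open Finset Pool.Agent.PartSep.TM

set_option synthInstance.maxSize 2000

variable {l : ℕ}

/-- the index of a vector of digits -/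
def idx (B : ℕ) (l : ℕ) (d : Fin l → ℕ) : ℕ := ∑ i : Fin l, d i * B ^ (i : ℕ)

theorem idx_succ (B l : ℕ) (d : Fin (l + 1) → ℕ) :
    idx B (l + 1) d = d (Fin.last l) * B ^ l + idx B l (fun i => d i.castSucc) := by
  unfold idx
  rw [Fin.sum_univ_castSucc]
  simp only [Fin.val_castSucc, Fin.val_last]
  rw [add_comm]

theorem idx_lt (B l : ℕ) (d : Fin l → ℕ) (hd : ∀ i, d i < B) : idx B l d < B ^ l := by
  induction l with
  | zero => simp [idx]
  | succ l ih =>
    rw [idx_succ, pow_succ]
    have h1 := ih (fun i => d i.castSucc) (fun i => hd _)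
    have h2 := hd (Fin.last l)
    calc d (Fin.last l) * B ^ l + idx B l (fun i => d i.castSucc)
        < d (Fin.last l) * B ^ l + B ^ l := by omega
      _ = (d (Fin.last l) + 1) * B ^ l := by ring
      _ ≤ B * B ^ l := Nat.mul_le_mul_right _ h2
      _ = B ^ l * B := by ring

theorem idx_const (B l : ℕ) (hB : 1 ≤ B) : idx B l (fun _ => B - 1) = B ^ l - 1 := by
  induction l with
  | zero => simp [idx]
  | succ l ih =>
    rw [idx_succ, ih, pow_succ]
    have h1 : 1 ≤ B ^ l := Nat.one_le_pow _ _ hB
    obtain ⟨b, rfl⟩ : ∃ b, B = b + 1 := ⟨B - 1, by omega⟩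
    have h2 : (b + 1) ^ l * (b + 1) = b * (b + 1) ^ l + (b + 1) ^ l := by ring
    rw [h2]
    simp only [Nat.add_sub_cancel]
    omega

theorem idx_dec (B l : ℕ) (d : Fin l → ℕ) (i : Fin l) (hi : d i ≠ 0) :
    idx B l d - B ^ (i : ℕ) = idx B l (dec d i) := by
  have h : idx B l d = idx B l (dec d i) + B ^ (i : ℕ) := by
    unfold idx
    have h1 : ∀ j : Fin l, d j * B ^ (j : ℕ) = dec d i j * B ^ (j : ℕ) +
        (if j = i then B ^ (j : ℕ) else 0) := by
      intro j
      by_cases hj : j = i
      · subst hj
        rw [if_pos rfl, dec, Function.update_self]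
        obtain ⟨k, hk⟩ : ∃ k, d j = k + 1 := ⟨d j - 1, by omega⟩
        rw [hk, Nat.add_sub_cancel]
        ring
      · rw [if_neg hj, dec, Function.update_of_ne hj, add_zero]
    rw [Finset.sum_congr rfl (fun j _ => h1 j), Finset.sum_add_distrib]
    congr 1
    rw [Finset.sum_ite_eq']
    simp
  omega

/-! ### The initial table -/

/-- the table for no objects -/
def tinit (B : ℕ) : ℕ → List BN
  | 0 => [⟨1⟩]
  | l + 1 => (List.range B).flatMap fun d =>
      if decide (d = 0) then (tinit B l).map (fun _ => (⟨0⟩ : BN)) else tinit B l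

theorem flatMap_length {α β : Type*} (f : α → List β) (L : ℕ) (xs : List α)
    (hf : ∀ a ∈ xs, (f a).length = L) : (xs.flatMap f).length = xs.length * L := by
  induction xs with
  | nil => simp
  | cons a xs ih =>
    rw [List.flatMap_cons, List.length_append, hf a (by simp),
      ih (fun b hb => hf b (by simp [hb])), List.length_cons]
    ring

theorem flatMap_getElem? {β : Type*} (f : ℕ → List β) (L B : ℕ)
    (hf : ∀ a, (f a).length = L) (a b : ℕ) (ha : a < B) (hb : b < L) :
    ((List.range B).flatMap f)[a * L + b]? = (f a)[b]? := by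
  induction B with
  | zero => omega
  | succ B ih =>
    rw [List.range_succ, List.flatMap_append]
    have hlen : ((List.range B).flatMap f).length = B * L := by
      rw [flatMap_length f L _ (fun a _ => hf a), List.length_range]
    by_cases h : a < B
    · rw [List.getElem?_append_left, ih h]
      rw [hlen]
      calc a * L + b < a * L + L := by omega
        _ = (a + 1) * L := by ring
        _ ≤ B * L := Nat.mul_le_mul_right _ h
    · have haB : a = B := by omega
      subst haB
      rw [List.getElem?_append_right (by rw [hlen]; omega), hlen]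
      simp

theorem tinit_length (B l : ℕ) : (tinit B l).length = B ^ l := by
  induction l with
  | zero => rfl
  | succ l ih =>
    rw [tinit, flatMap_length _ (B ^ l)]
    · rw [List.length_range, pow_succ]
      ring
    · intro a _
      split
      · rw [List.length_map, ih]
      · exact ih

theorem tinit_get (B l : ℕ) (d : Fin l → ℕ) (hd : ∀ i, d i < B) :
    ((tinit B l)[idx B l d]?.getD ⟨0⟩).val = if ∃ i, d i = 0 then 0 else 1 := by
  induction l with
  | zero => simp [idx, tinit]
  | succ l ih =>
    rw [idx_succ, tinit, flatMap_getElem? _ (B ^ l) B _ _ _ (hd _)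
      (idx_lt B l _ (fun i => hd _))]
    · by_cases h0 : d (Fin.last l) = 0
      · have h1 : ∃ i, d i = 0 := ⟨_, h0⟩
        rw [if_pos h1]
        simp only [h0, decide_true, if_true, List.getElem?_map]
        cases (tinit B l)[idx B l (fun i => d i.castSucc)]? <;> rfl
      · simp only [h0, decide_false, Bool.false_eq_true, if_false]
        rw [ih (fun i => d i.castSucc) (fun i => hd _)]
        have h2 : (∃ i : Fin l, d i.castSucc = 0) ↔ ∃ i : Fin (l + 1), d i = 0 := by
          constructor
          · rintro ⟨i, hi⟩
            exact ⟨_, hi⟩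
          · rintro ⟨i, hi⟩
            induction i using Fin.lastCases with
            | last => exact absurd hi h0
            | cast i => exact ⟨i, hi⟩
        simp only [h2]
    · intro a
      split
      · rw [List.length_map, tinit_length]
      · exact tinit_length B l

/-! ### One object -/

/-- the candidate in which the object goes to the class `i` -/
def cand (B : ℕ) (r t : List BN) (j i : ℕ) : BN :=
  if decide ((t[j - B ^ i]?.getD ⟨0⟩).val = 0) then ⟨0⟩
  else ⟨(t[j - B ^ i]?.getD ⟨0⟩).val + (r[i]?.getD ⟨0⟩).val⟩

/-- maximum -/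
def bmax (a b : BN) : BN := if decide (a.val ≤ b.val) then b else a

theorem bmax_val (a b : BN) : (bmax a b).val = max a.val b.val := by
  unfold bmax
  by_cases h : a.val ≤ b.val
  · simp [h]
  · simp only [h, decide_false, Bool.false_eq_true, if_false]
    omega

/-- the maximum of the old entry and the first `i` candidates -/
def cmax (B : ℕ) (r t : List BN) (j : ℕ) : ℕ → BN
  | 0 => t[j]?.getD ⟨0⟩
  | i + 1 => bmax (cmax B r t j i) (cand B r t j i)

/-- the new entry -/
def cell (B : ℕ) (l : ℕ) (r t : List BN) (j : ℕ) : BN :=
  if decide ((t[j]?.getD ⟨0⟩).val = 0) then ⟨0⟩ else cmax B r t j l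

/-- the new table -/
def step (B : ℕ) (l : ℕ) (r t : List BN) : List BN :=
  (List.range t.length).map (fun j => cell B l r t j)

theorem step_length (B l : ℕ) (r t : List BN) : (step B l r t).length = t.length := by
  simp [step]

theorem step_get (B l : ℕ) (r t : List BN) (j : ℕ) (hj : j < t.length) :
    (step B l r t)[j]?.getD ⟨0⟩ = cell B l r t j := by
  simp [step, hj]

theorem cmax_val (B : ℕ) (r t : List BN) (j i : ℕ) :
    (cmax B r t j i).val = max (t[j]?.getD ⟨0⟩).val
      ((Finset.range i).sup fun k => (cand B r t j k).val) := by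
  induction i with
  | zero => simp [cmax]
  | succ i ih =>
    rw [cmax, bmax_val, ih, Finset.range_add_one, Finset.sup_insert]
    rw [max_assoc, max_comm ((Finset.range i).sup _)]

/-! ### The whole table -/

/-- the invariant of the table -/
def Inv (B l : ℕ) (W : List (Fin l → ℕ)) (t : List BN) : Prop :=
  t.length = B ^ l ∧ ∀ d : Fin l → ℕ, (∀ i, d i < B) →
    (t[idx B l d]?.getD ⟨0⟩).val = if ∃ i, d i = 0 then 0 else 1 + best W (fun i => d i - 1)

theorem inv_init (B l : ℕ) : Inv B l [] (tinit B l) := by
  refine ⟨tinit_length B l, fun d hd => ?_⟩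
  rw [tinit_get B l d hd]
  simp [best_nil]

/-- the row of weights as a function -/
def rowF (l : ℕ) (r : List BN) : Fin l → ℕ := fun i => (r[(i : ℕ)]?.getD ⟨0⟩).val

theorem inv_step (B l : ℕ) (W : List (Fin l → ℕ)) (r t : List BN) (h : Inv B l W t) :
    Inv B l (rowF l r :: W) (step B l r t) := by
  refine ⟨by rw [step_length, h.1], fun d hd => ?_⟩
  have hlt : idx B l d < t.length := by rw [h.1]; exact idx_lt B l d hd
  rw [step_get _ _ _ _ _ hlt]
  unfold cell
  by_cases h0 : ∃ i, d i = 0
  · rw [h.2 d hd, if_pos h0, if_pos h0]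
    simp
  · rw [h.2 d hd, if_neg h0, if_neg h0]
    have e1 : decide (1 + best W (fun i => d i - 1) = 0) = false := by
      rw [decide_eq_false_iff_not]; omega
    rw [e1]
    simp only [Bool.false_eq_true, if_false]
    rw [cmax_val, h.2 d hd, if_neg h0, best_cons]
    push Not at h0
    have hc : ∀ i : Fin l, (cand B r t (idx B l d) i).val =
        if d i - 1 = 0 then 0 else 1 + (best W (dec (fun i => d i - 1) i) + rowF l r i) := by
      intro i
      have h1 := h0 i
      have e2 : (t[idx B l d - B ^ (i : ℕ)]?.getD ⟨0⟩).val =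
          if d i - 1 = 0 then 0 else 1 + best W (dec (fun i => d i - 1) i) := by
        rw [idx_dec B l d i h1, h.2 (dec d i)]
        · by_cases h2 : d i - 1 = 0
          · have h3 : ∃ k, dec d i k = 0 := ⟨i, by rw [dec, Function.update_self]; exact h2⟩
            rw [if_pos h3, if_pos h2]
          · have h3 : ¬ ∃ k, dec d i k = 0 := by
              rintro ⟨k, hk⟩
              by_cases hki : k = i
              · subst hki
                rw [dec, Function.update_self] at hk
                exact h2 hk
              · rw [dec, Function.update_of_ne hki] at hk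
                exact h0 k hk
            rw [if_neg h3, if_neg h2]
            congr 2
            funext k
            by_cases hki : k = i
            · subst hki
              rw [dec, dec, Function.update_self, Function.update_self]
            · rw [dec, dec, Function.update_of_ne hki, Function.update_of_ne hki]
        · intro k
          by_cases hki : k = i
          · subst hki
            rw [dec, Function.update_self]
            exact lt_of_le_of_lt (Nat.sub_le _ _) (hd k)
          · rw [dec, Function.update_of_ne hki]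
            exact hd k
      unfold cand
      rw [e2]
      by_cases h2 : d i - 1 = 0
      · simp [h2]
      · rw [if_neg h2, if_neg h2]
        have e3 : decide (1 + best W (dec (fun i => d i - 1) i) = 0) = false := by
          rw [decide_eq_false_iff_not]; omega
        rw [e3]
        simp only [Bool.false_eq_true, if_false]
        rw [add_assoc]
        rfl
    apply le_antisymm
    · apply max_le
      · exact Nat.add_le_add_left (le_max_left _ _) 1
      · apply Finset.sup_le
        intro k hk
        have hk' : k < l := Finset.mem_range.1 hk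
        have h1 := hc ⟨k, hk'⟩
        simp only at h1
        rw [h1]
        by_cases h2 : d ⟨k, hk'⟩ - 1 = 0
        · rw [if_pos h2]; exact Nat.zero_le _
        · rw [if_neg h2]
          apply Nat.add_le_add_left
          apply le_max_of_le_right
          have h3 := Finset.le_sup (f := fun i : Fin l => if (fun i => d i - 1) i = 0 then 0
            else best W (dec (fun i => d i - 1) i) + rowF l r i) (Finset.mem_univ ⟨k, hk'⟩)
          simp only [h2, if_false] at h3
          exact h3
    · rw [← Nat.add_max_add_left]
      apply max_le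
      · exact le_max_left _ _
      · rcases Finset.eq_empty_or_nonempty (univ : Finset (Fin l)) with he | hne
        · rw [he, Finset.sup_empty]
          apply le_max_of_le_left
          exact Nat.add_le_add_left (Nat.zero_le _) 1
        · obtain ⟨j, -, hj⟩ := Finset.exists_mem_eq_sup _ hne (fun i : Fin l =>
            if (fun i => d i - 1) i = 0 then 0
            else best W (dec (fun i => d i - 1) i) + rowF l r i)
          rw [hj]
          by_cases h2 : d j - 1 = 0
          · simp only [h2, if_true]
            apply le_max_of_le_left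
            exact Nat.add_le_add_left (Nat.zero_le _) 1
          · apply le_max_of_le_right
            have h3 := Finset.le_sup (f := fun k => (cand B r t (idx B l d) k).val)
              (Finset.mem_range.2 j.2)
            have h1 := hc j
            rw [if_neg h2] at h1
            simp only [h2, if_false]
            rw [h1] at h3
            exact h3

/-- the table for the rows of `W` -/
def table (B l : ℕ) (W : List (List BN)) : List BN :=
  W.reverse.foldl (fun t r => step B l r t) (tinit B l)

theorem inv_table (B l : ℕ) (W : List (List BN)) : Inv B l (W.map (rowF l)) (table B l W) := by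
  unfold table
  rw [List.foldl_reverse]
  induction W with
  | nil => exact inv_init B l
  | cons r W ih =>
    rw [List.foldr_cons, List.map_cons]
    exact inv_step B l _ r _ ih

/-- The maximum weight of an assignment of the objects (rows of `W`) to `l` classes, at most `K`
objects in each class. -/
def dp (l K : ℕ) (W : List (List BN)) : BN :=
  ⟨((table (K + 2) l W)[(K + 2) ^ l - 1]?.getD ⟨0⟩).val - 1⟩

theorem dp_val (l K : ℕ) (W : List (List BN)) :
    (dp l K W).val = best (W.map (rowF l)) (fun _ => K) := by
  have h := (inv_table (K + 2) l W).2 (fun _ => K + 1) (fun _ => by omega)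
  have e := idx_const (K + 2) l (by omega)
  have e' : (fun _ : Fin l => K + 2 - 1) = fun _ => K + 1 := by funext; omega
  rw [e'] at e
  rw [e] at h
  unfold dp
  rw [h]
  have h0 : ¬ ∃ _i : Fin l, K + 1 = 0 := by rintro ⟨-, h⟩; omega
  rw [if_neg h0]
  simp

/-! ### Polynomial time -/

section FPpart

variable {E : Type} [Rep E]

theorem FP.tinit {B : E → ℕ} (hB : FP B) (l : ℕ) : FP (fun x => tinit (B x) l) := by
  induction l with
  | zero => exact FP.const _
  | succ l ih =>
    exact FP.flatMapE (FP.range hB) (g := fun y : E × ℕ => if decide (y.2 = 0) then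
        (FairDivDP.tinit (B y.1) l).map (fun _ => (⟨0⟩ : BN)) else FairDivDP.tinit (B y.1) l)
      (FP.ite (FP.natIsZero FP.snd)
        (FP.mapE (FP.comp ih FP.fst) (g := fun _ => (⟨0⟩ : BN)) (FP.const _))
        (FP.comp ih FP.fst))

theorem FP.bIsZero {f : E → BN} (hf : FP f) : FP (fun x => decide ((f x).val = 0)) :=
  (FP.bEq hf (FP.const (⟨0⟩ : BN))).congr (fun _ => rfl)

theorem FP.npow {B : E → ℕ} (hB : FP B) (i : ℕ) : FP (fun x => B x ^ i) :=
  (FP.poly hB (Polynomial.X ^ i)).congr (fun x => by simp)

theorem FP.cand {B j : E → ℕ} {r t : E → List BN} (hB : FP B) (hr : FP r) (ht : FP t)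
    (hj : FP j) (i : ℕ) : FP (fun x => cand (B x) (r x) (t x) (j x) i) := by
  have h1 : FP (fun x => (t x)[j x - B x ^ i]?.getD (⟨0⟩ : BN)) :=
    FP.getE ht (FP.sub hj (FP.npow hB i)) _
  have h2 : FP (fun x => (r x)[i]?.getD (⟨0⟩ : BN)) := FP.getE hr (FP.const i) _
  exact FP.ite (FP.bIsZero h1) (FP.const _) (FP.bAdd h1 h2)

theorem FP.bmax {f g : E → BN} (hf : FP f) (hg : FP g) : FP (fun x => bmax (f x) (g x)) :=
  FP.ite (FP.bLe hf hg) hg hf

theorem FP.cmax {B j : E → ℕ} {r t : E → List BN} (hB : FP B) (hr : FP r) (ht : FP t)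
    (hj : FP j) (i : ℕ) : FP (fun x => cmax (B x) (r x) (t x) (j x) i) := by
  induction i with
  | zero => exact FP.getE ht hj _
  | succ i ih => exact FP.bmax ih (FP.cand hB hr ht hj i)

theorem FP.cell {B j : E → ℕ} {r t : E → List BN} (hB : FP B) (hr : FP r) (ht : FP t)
    (hj : FP j) (l : ℕ) : FP (fun x => cell (B x) l (r x) (t x) (j x)) :=
  FP.ite (FP.bIsZero (FP.getE ht hj _)) (FP.const _) (FP.cmax hB hr ht hj l)

theorem FP.step {B : E → ℕ} {r t : E → List BN} (hB : FP B) (hr : FP r) (ht : FP t) (l : ℕ) :
    FP (fun x => step (B x) l (r x) (t x)) :=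
  FP.mapE (FP.range (FP.lengthE ht))
    (g := fun y : E × ℕ => FairDivDP.cell (B y.1) l (r y.1) (t y.1) y.2)
    (FP.cell (FP.comp hB FP.fst) (FP.comp hr FP.fst) (FP.comp ht FP.fst) FP.snd l)

/-- a bound for the entries of a list -/
def Bd (M : ℕ) (t : List BN) : Prop := ∀ a ∈ t, a.val ≤ M

theorem Bd.get {M : ℕ} {t : List BN} (h : Bd M t) (j : ℕ) : (t[j]?.getD ⟨0⟩).val ≤ M := by
  by_cases hj : j < t.length
  · rw [List.getElem?_eq_getElem hj]
    exact h _ (List.getElem_mem hj)
  · rw [List.getElem?_eq_none (by omega)]
    exact Nat.zero_le _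

theorem bd_tinit (B l : ℕ) : Bd 1 (tinit B l) := by
  induction l with
  | zero =>
    intro a ha
    rw [FairDivDP.tinit, List.mem_singleton] at ha
    rw [ha]
  | succ l ih =>
    intro a ha
    rw [FairDivDP.tinit, List.mem_flatMap] at ha
    obtain ⟨d, -, hd⟩ := ha
    split at hd
    · obtain ⟨b, -, rfl⟩ := List.mem_map.1 hd
      exact Nat.zero_le _
    · exact ih a hd

theorem bd_step {B l M N : ℕ} {r t : List BN} (ht : Bd M t) (hr : Bd N r) :
    Bd (M + N) (step B l r t) := by
  intro a ha
  obtain ⟨j, -, rfl⟩ := List.mem_map.1 ha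
  unfold FairDivDP.cell
  split
  · exact Nat.zero_le _
  · rw [cmax_val]
    apply max_le
    · exact (ht.get j).trans (Nat.le_add_right _ _)
    · apply Finset.sup_le
      intro k _
      unfold FairDivDP.cand
      split
      · exact Nat.zero_le _
      · exact Nat.add_le_add (ht.get _) (hr.get _)

theorem bd_fold {B l N : ℕ} (W : List (List BN)) (hW : ∀ r ∈ W, Bd N r) (M : ℕ) (t : List BN)
    (ht : Bd M t) :
    Bd (M + W.length * N) (W.foldl (fun t r => step B l r t) t) ∧
      (W.foldl (fun t r => step B l r t) t).length = t.length := by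
  induction W generalizing M t with
  | nil => simpa using ht
  | cons r W ih =>
    have h := ih (fun r hr => hW r (by simp [hr])) (M + N) (step B l r t)
      (bd_step ht (hW r (by simp)))
    rw [List.foldl_cons, List.length_cons]
    refine ⟨?_, ?_⟩
    · have e : M + (W.length + 1) * N = M + N + W.length * N := by ring
      rw [e]
      exact h.1
    · rw [h.2, step_length]

theorem size_le_of_bd {k : ℕ} (t : List BN) (h : ∀ a ∈ t, size a ≤ k) :
    size t ≤ t.length * (1 + Fintype.card (Rep.ix BN) + 2 * k) := by
  rw [size_listE]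
  have h1 := List.sum_le_card_nsmul (t.map (fun a => 1 + Fintype.card (Rep.ix BN) + 2 * size a))
    (1 + Fintype.card (Rep.ix BN) + 2 * k) (by
      intro n hn
      obtain ⟨a, ha, rfl⟩ := List.mem_map.1 hn
      have := h a ha
      omega)
  rwa [List.length_map, smul_eq_mul] at h1

theorem FP.table {B : E → ℕ} {W : E → List (List BN)} (hB : FP B) (hW : FP W) (l : ℕ) :
    FP (fun x => table (B x) l (W x)) := by
  obtain ⟨pB, hpB⟩ := hB.size_le
  obtain ⟨pW, hpW⟩ := hW.size_le
  refine FP.foldlE (FP.reverseE hW) (init := fun x => FairDivDP.tinit (B x) l) (FP.tinit hB l)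
    (step := fun y : E × List BN × List BN => FairDivDP.step (B y.1) l y.2.2 y.2.1)
    (FP.step (FP.comp hB FP.fst) (FP.comp FP.snd FP.snd) (FP.comp FP.fst FP.snd) l)
    ⟨pB ^ l * (1 + Polynomial.C (Fintype.card (Rep.ix BN)) + 2 * (2 * pW + 1)),
      fun x l' hl' => ?_⟩
  have hmem : ∀ r ∈ l', r ∈ W x := fun r hr => List.mem_reverse.1 (hl'.subset hr)
  have hN : ∀ r ∈ l', Bd (2 ^ size (W x)) r := by
    intro r hr a ha
    have h1 := lt_two_pow_size a
    have h2 : size a ≤ size (W x) := (size_le_of_mem ha).trans (size_le_of_mem (hmem r hr))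
    exact h1.le.trans (Nat.pow_le_pow_right (by norm_num) h2)
  have hb := bd_fold (B := B x) (l := l) l' hN 1 (FairDivDP.tinit (B x) l) (bd_tinit _ _)
  have hlen : l'.length ≤ size (W x) := by
    refine hl'.length_le.trans ?_
    rw [List.length_reverse]
    exact length_le_size _
  have hs : ∀ a ∈ l'.foldl (fun t r => FairDivDP.step (B x) l r t) (FairDivDP.tinit (B x) l),
      size a ≤ 2 * size (W x) + 1 := by
    intro a ha
    have h1 := hb.1 a ha
    apply size_BN_le
    have h2 : l'.length + 1 ≤ 2 ^ l'.length := Nat.lt_two_pow_self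
    have h3 : 1 ≤ 2 ^ size (W x) := Nat.one_le_two_pow
    calc a.val ≤ 1 + l'.length * 2 ^ size (W x) := h1
      _ ≤ 2 ^ size (W x) + l'.length * 2 ^ size (W x) := Nat.add_le_add_right h3 _
      _ = (l'.length + 1) * 2 ^ size (W x) := by ring
      _ ≤ 2 ^ l'.length * 2 ^ size (W x) := Nat.mul_le_mul_right _ h2
      _ = 2 ^ (l'.length + size (W x)) := by rw [pow_add]
      _ < 2 ^ (2 * size (W x) + 1) := Nat.pow_lt_pow_right (by norm_num) (by omega)
  have h4 := size_le_of_bd _ hs
  rw [hb.2, tinit_length] at h4
  refine h4.trans ?_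
  have h5 := hpB x
  rw [size_nat] at h5
  have h6 := hpW x
  simp only [Polynomial.eval_mul, Polynomial.eval_pow, Polynomial.eval_add, Polynomial.eval_one,
    Polynomial.eval_C, Polynomial.eval_ofNat]
  exact Nat.mul_le_mul (Nat.pow_le_pow_left h5 l) (by omega)

/-- The dynamic program runs in polynomial time (the number of classes `l` is fixed, the capacity
is in unary, the weights are in binary). -/
theorem FP.dp {K : E → ℕ} {W : E → List (List BN)} (hK : FP K) (hW : FP W) (l : ℕ) :
    FP (fun x => dp l (K x) (W x)) := by
  have hB : FP (fun x => K x + 2) := FP.addConst hK 2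
  have h1 : FP (fun x => FairDivDP.table (K x + 2) l (W x)) := FP.table hB hW l
  have h2 : FP (fun x => (K x + 2) ^ l - 1) := FP.sub (FP.npow hB l) (FP.const 1)
  exact FP.bSub (FP.getE h1 h2 (⟨0⟩ : BN)) (FP.const (⟨1⟩ : BN))

end FPpart

end Pool.Agent.FairDivDP
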